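import Mathlib

namespace Pool.Agent.Results.MP_d4114f_an.Comp

open Set Topology

section defs

variable {G E F : Type*} [Group G] [TopologicalSpace G]
  [AddCommGroup E] [Module ℝ E] [TopologicalSpace E]
  [AddCommGroup F] [Module ℝ F] [TopologicalSpace F]

/-- `f` is affine on the convex set `K`. -/
def AffOn (f : E → F) (K : Set E) : Prop :=
  ∀ x ∈ K, ∀ y ∈ K, ∀ s t : ℝ, 0 ≤ s → 0 ≤ t → s + t = 1 → f (s • x + t • y) = s • f x + t • f y

/-- `K` with `a` (only its values on `K` matter) is an affine `G`-flow: a compact convex set with a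
jointly continuous action by affine maps. -/
structure IsFlow (a : G → E → E) (K : Set E) : Prop where
  compact : IsCompact K
  convex : Convex ℝ K
  maps : ∀ g, MapsTo (a g) K K
  one : ∀ x ∈ K, a 1 x = x
  mul : ∀ g h, ∀ x ∈ K, a (g * h) x = a g (a h x)
  cont : ContinuousOn (fun p : G × E => a p.1 p.2) (univ ×ˢ K)
  aff : ∀ g, AffOn (a g) K

/-- `φ : L → K` is an affine extension: a continuous affine equivariant surjection. -/
structure IsExt (a : G → E → E) (L : Set E) (b : G → F → F) (K : Set F) (φ : E → F) : Prop where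
  cont : ContinuousOn φ L
  aff : AffOn φ L
  onto : φ '' L = K
  equiv : ∀ g, ∀ x ∈ L, φ (a g x) = b g (φ x)

/-- Proximal irreducibility of `φ : L → K`. -/
def ProxIrr (a : G → E → E) (L : Set E) (K : Set F) (φ : E → F) : Prop :=
  ∀ C : Set E, C ⊆ L → IsCompact C → Convex ℝ C → (∀ g, MapsTo (a g) C C) →
    (∀ y ∈ closure (extremePoints ℝ K),
      (C ∩ convexHull ℝ (closure (extremePoints ℝ L) ∩ φ ⁻¹' {y})).Nonempty) → C = L

end defs

section aux

variable {G E F : Type*} [Group G] [TopologicalSpace G]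
  [AddCommGroup E] [Module ℝ E] [TopologicalSpace E] [T2Space E]
  [IsTopologicalAddGroup E] [ContinuousSMul ℝ E] [LocallyConvexSpace ℝ E]
  [AddCommGroup F] [Module ℝ F] [TopologicalSpace F] [T2Space F]
  [IsTopologicalAddGroup F] [ContinuousSMul ℝ F] [LocallyConvexSpace ℝ F]

omit [T2Space E] [LocallyConvexSpace ℝ E] in
theorem join_compact {s t : Set E} (hs : IsCompact s) (ht : IsCompact t) :
    IsCompact (convexJoin ℝ s t) := by
  have h : convexJoin ℝ s t =
      (fun p : ℝ × E × E => (1 - p.1) • p.2.1 + p.1 • p.2.2) '' (Icc 0 1 ×ˢ s ×ˢ t) := by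
    ext x
    simp only [mem_convexJoin, mem_image, mem_prod, mem_Icc, Prod.exists]
    constructor
    · rintro ⟨a, ha, b, hb, u, v, hu, hv, huv, rfl⟩
      refine ⟨v, a, b, ⟨⟨hv, by linarith⟩, ha, hb⟩, ?_⟩
      rw [show 1 - v = u by linarith]
    · rintro ⟨v, a, b, ⟨⟨h0, h1⟩, ha, hb⟩, rfl⟩
      exact ⟨a, ha, b, hb, 1 - v, v, by linarith, h0, by ring, rfl⟩
  rw [h]
  exact (isCompact_Icc.prod (hs.prod ht)).image (by fun_prop)

theorem milman {K A : Set E} (hK : IsCompact K) (hc : Convex ℝ K) (hA : IsClosed A) (hAK : A ⊆ K)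
    (h : K ⊆ closure (convexHull ℝ A)) : extremePoints ℝ K ⊆ A := by
  intro x hx
  by_contra hxA
  have hAc : IsCompact A := hK.of_isClosed_subset hA hAK
  have key : ∃ D : Set E, IsCompact D ∧ Convex ℝ D ∧ D ⊆ K ∧ A ⊆ D ∧ x ∉ D := by
    refine hAc.induction_on (p := fun S => ∃ D : Set E, IsCompact D ∧ Convex ℝ D ∧ D ⊆ K ∧ S ⊆ D ∧
      x ∉ D) ⟨∅, isCompact_empty, convex_empty, empty_subset _, Subset.rfl, notMem_empty _⟩ ?_ ?_ ?_
    · rintro s t hst ⟨D, h1, h2, h3, h4, h5⟩
      exact ⟨D, h1, h2, h3, hst.trans h4, h5⟩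
    · rintro s t ⟨D, h1, h2, h3, h4, h5⟩ ⟨D', h1', h2', h3', h4', h5'⟩
      rcases D.eq_empty_or_nonempty with rfl | hD
      · exact ⟨D', h1', h2', h3', union_subset (h4.trans (empty_subset _)) h4', h5'⟩
      rcases D'.eq_empty_or_nonempty with rfl | hD'
      · exact ⟨D, h1, h2, h3, union_subset h4 (h4'.trans (empty_subset _)), h5⟩
      refine ⟨convexJoin ℝ D D', join_compact h1 h1', h2.convexJoin h2',
        convexJoin_subset h3 h3' hc, union_subset (h4.trans (subset_convexJoin_left hD'))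
          (h4'.trans (subset_convexJoin_right hD)), ?_⟩
      intro hxj
      obtain ⟨a, ha, b, hb, hab⟩ := mem_convexJoin.1 hxj
      rcases (mem_extremePoints_iff_forall_segment.1 hx).2 a (h3 ha) b (h3' hb) hab with rfl | rfl
      · exact h5 ha
      · exact h5' hb
    · intro a ha
      have hne : a ≠ x := fun e => hxA (e ▸ ha)
      obtain ⟨l, hl⟩ := geometric_hahn_banach_point_point hne
      refine ⟨A ∩ {y | l y < (l a + l x) / 2}, inter_mem_nhdsWithin _
        ((isOpen_lt l.continuous continuous_const).mem_nhds (by simp only [mem_ofPred_eq]; linarith)),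
        K ∩ {y | l y ≤ (l a + l x) / 2},
        hK.inter_right (isClosed_le l.continuous continuous_const),
        hc.inter (convex_halfSpace_le l.toLinearMap.isLinear _), inter_subset_left, ?_, ?_⟩
      · rintro y ⟨h1, h2⟩
        exact ⟨hAK h1, (le_of_lt h2 : l y ≤ (l a + l x) / 2)⟩
      · rintro ⟨_, h2⟩
        simp only [mem_ofPred_eq] at h2
        linarith
  obtain ⟨D, h1, h2, _, h4, h5⟩ := key
  exact h5 (closure_minimal (convexHull_min h4 h2) h1.isClosed (h (extremePoints_subset hx)))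

omit [TopologicalSpace E] [T2Space E] [IsTopologicalAddGroup E] [ContinuousSMul ℝ E]
  [LocallyConvexSpace ℝ E] [TopologicalSpace F] [T2Space F] [IsTopologicalAddGroup F]
  [ContinuousSMul ℝ F] [LocallyConvexSpace ℝ F] in
theorem aff_sum {f : E → F} {K : Set E} (hc : Convex ℝ K) (hf : AffOn f K) {n : ℕ}
    (w : Fin n → ℝ) (x : Fin n → E) (hw : w ∈ stdSimplex ℝ (Fin n)) (hx : ∀ i, x i ∈ K) :
    f (∑ i, w i • x i) = ∑ i, w i • f (x i) := by
  have hg : Convex ℝ {p : E × F | p.1 ∈ K ∧ f p.1 = p.2} := by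
    rintro p ⟨hp, hp'⟩ q ⟨hq, hq'⟩ s t hs ht hst
    refine ⟨hc hp hq hs ht hst, ?_⟩
    simp only [Prod.fst_add, Prod.smul_fst, Prod.snd_add, Prod.smul_snd]
    rw [hf _ hp _ hq s t hs ht hst, hp', hq']
  have := hg.sum_mem (t := Finset.univ) (w := w) (z := fun i => (x i, f (x i)))
    (fun i _ => hw.1 i) hw.2 (fun i _ => ⟨hx i, rfl⟩)
  simpa [Prod.fst_sum, Prod.snd_sum] using this.2

omit [T2Space E] [IsTopologicalAddGroup E] [ContinuousSMul ℝ E]
  [LocallyConvexSpace ℝ E] [T2Space F] [LocallyConvexSpace ℝ F] [IsTopologicalAddGroup F]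
  [ContinuousSMul ℝ F] in
theorem map_hull {f : E → F} {K S : Set E} {T : Set F} (hK : IsClosed K) (hc : Convex ℝ K)
    (hf : AffOn f K) (hf' : ContinuousOn f K) (hS : S ⊆ K) (hST : MapsTo f S T) :
    MapsTo f (closure (convexHull ℝ S)) (closure (convexHull ℝ T)) := by
  have h1 : convexHull ℝ S ⊆ K ∩ f ⁻¹' (convexHull ℝ T) := by
    refine convexHull_min (fun x hx => ⟨hS hx, subset_convexHull _ _ (hST hx)⟩) ?_
    rintro x ⟨hx, hx'⟩ y ⟨hy, hy'⟩ s t hs ht hst
    refine ⟨hc hx hy hs ht hst, ?_⟩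
    rw [mem_preimage, hf _ hx _ hy s t hs ht hst]
    exact convex_convexHull ℝ T hx' hy' hs ht hst
  have h2 : MapsTo f (convexHull ℝ S) (convexHull ℝ T) := fun x hx => (h1 hx).2
  exact h2.closure_of_continuousOn
    (hf'.mono (closure_minimal (h1.trans inter_subset_left) hK))

omit [T2Space E] [IsTopologicalAddGroup E] [ContinuousSMul ℝ E] [LocallyConvexSpace ℝ E] in
theorem IsFlow.contOn {a : G → E → E} {K : Set E} (h : IsFlow a K) (g : G) :
    ContinuousOn (a g) K :=
  h.cont.comp (f := fun x : E => (g, x)) (by fun_prop) (fun x hx => ⟨mem_univ _, hx⟩)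

omit [T2Space E] [IsTopologicalAddGroup E] [ContinuousSMul ℝ E] [LocallyConvexSpace ℝ E] in
theorem IsFlow.inv {a : G → E → E} {K : Set E} (h : IsFlow a K) (g : G) {x : E} (hx : x ∈ K) :
    a g⁻¹ (a g x) = x := by
  rw [← h.mul _ _ _ hx, inv_mul_cancel, h.one _ hx]

omit [IsTopologicalAddGroup E] [ContinuousSMul ℝ E] [LocallyConvexSpace ℝ E] in
theorem IsFlow.sub {a : G → E → E} {K : Set E} (h : IsFlow a K) :
    closure (extremePoints ℝ K) ⊆ K :=
  closure_minimal extremePoints_subset h.compact.isClosed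

omit [IsTopologicalAddGroup E] [ContinuousSMul ℝ E] [LocallyConvexSpace ℝ E] in
theorem IsFlow.clos {a : G → E → E} {K S : Set E} (h : IsFlow a K) (hS : S ⊆ K)
    (hi : ∀ g, MapsTo (a g) S S) (g : G) : MapsTo (a g) (closure S) (closure S) :=
  (hi g).closure_of_continuousOn ((h.contOn g).mono (closure_minimal hS h.compact.isClosed))

omit [IsTopologicalAddGroup E] [ContinuousSMul ℝ E] [LocallyConvexSpace ℝ E] in
theorem IsFlow.ext_inv {a : G → E → E} {K : Set E} (h : IsFlow a K) (g : G) :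
    MapsTo (a g) (closure (extremePoints ℝ K)) (closure (extremePoints ℝ K)) := by
  refine h.clos extremePoints_subset (fun g x hx => ?_) g
  rw [mem_extremePoints_iff_forall_segment] at hx ⊢
  refine ⟨h.maps g hx.1, ?_⟩
  rintro y hy z hz ⟨s, t, hs, ht, hst, e⟩
  have e2 : s • a g⁻¹ y + t • a g⁻¹ z = x := by
    rw [← h.aff _ _ hy _ hz s t hs ht hst, e, h.inv g hx.1]
  have iv : ∀ w ∈ K, a g (a g⁻¹ w) = w := fun w hw => by simpa using h.inv g⁻¹ hw
  rcases hx.2 _ (h.maps g⁻¹ hy) _ (h.maps g⁻¹ hz) ⟨s, t, hs, ht, hst, e2⟩ with e3 | e3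
  · left; rw [← e3, iv _ hy]
  · right; rw [← e3, iv _ hz]

/-- fibres over the closure of the extreme points are nonempty -/
theorem fibre {a : G → E → E} {L : Set E} {b : G → F → F} {K : Set F} {φ : E → F}
    (hL : IsFlow a L) (hK : IsFlow b K) (hφ : IsExt a L b K φ) :
    closure (extremePoints ℝ K) ⊆ φ '' closure (extremePoints ℝ L) := by
  have hc : IsCompact (φ '' closure (extremePoints ℝ L)) :=
    (hL.compact.of_isClosed_subset isClosed_closure hL.sub).image_of_continuousOn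
      (hφ.cont.mono hL.sub)
  refine closure_minimal (milman hK.compact hK.convex hc.isClosed ?_ ?_) hc.isClosed
  · rw [← hφ.onto]; exact image_mono hL.sub
  · rw [← hφ.onto]
    rintro _ ⟨x, hx, rfl⟩
    refine map_hull hL.compact.isClosed hL.convex hφ.aff hφ.cont hL.sub (mapsTo_image _ _) ?_
    rw [← closure_convexHull_extremePoints hL.compact hL.convex] at hx
    exact closure_mono (convexHull_mono subset_closure) hx

omit [T2Space F] [IsTopologicalAddGroup F] [ContinuousSMul ℝ F] [LocallyConvexSpace ℝ F] in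
theorem key {a : G → E → E} {L : Set E} {K : Set F} {φ : E → F}
    (hL : IsFlow a L) (hp : ProxIrr a L K φ) {S : Set E} (hS : IsClosed S) (hSL : S ⊆ L)
    (hi : ∀ g, MapsTo (a g) S S)
    (hm : ∀ y ∈ closure (extremePoints ℝ K),
      (S ∩ convexHull ℝ (closure (extremePoints ℝ L) ∩ φ ⁻¹' {y})).Nonempty) :
    extremePoints ℝ L ⊆ S := by
  have hsub : closure (convexHull ℝ S) ⊆ L :=
    closure_minimal (convexHull_min hSL hL.convex) hL.compact.isClosed
  have := hp (closure (convexHull ℝ S)) hsub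
    (hL.compact.of_isClosed_subset isClosed_closure hsub) (convex_convexHull ℝ S).closure
    (fun g => map_hull hL.compact.isClosed hL.convex (hL.aff g) (hL.contOn g) hSL (hi g))
    (fun y hy => (hm y hy).mono (inter_subset_inter_left _
      ((subset_convexHull ℝ S).trans subset_closure)))
  exact milman hL.compact hL.convex hS hSL this.ge

theorem into {a : G → E → E} {L : Set E} {b : G → F → F} {K : Set F} {φ : E → F}
    (hL : IsFlow a L) (hK : IsFlow b K) (hφ : IsExt a L b K φ) (hp : ProxIrr a L K φ) :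
    MapsTo φ (closure (extremePoints ℝ L)) (closure (extremePoints ℝ K)) := by
  have hcl : IsClosed (closure (extremePoints ℝ L) ∩ φ ⁻¹' closure (extremePoints ℝ K)) :=
    (hφ.cont.mono hL.sub).preimage_isClosed_of_isClosed isClosed_closure isClosed_closure
  have := key hL hp hcl (inter_subset_left.trans hL.sub)
    (fun g x hx => ⟨hL.ext_inv g hx.1, by
      rw [mem_preimage, hφ.equiv g x (hL.sub hx.1)]; exact hK.ext_inv g hx.2⟩)
    (fun y hy => by
      obtain ⟨x, hx, rfl⟩ := fibre hL hK hφ hy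
      exact ⟨x, ⟨hx, hy⟩, subset_convexHull _ _ ⟨hx, rfl⟩⟩)
  exact fun x hx => (closure_minimal this hcl hx).2

theorem dense_step {a : G → E → E} {L : Set E} {b : G → F → F} {K : Set F} {φ : E → F}
    (hL : IsFlow a L) (hK : IsFlow b K) (hφ : IsExt a L b K φ) (hp : ProxIrr a L K φ)
    {R : Set F} (hR : ∀ g, MapsTo (b g) R R)
    (hd : closure (extremePoints ℝ K) ⊆ closure (closure (extremePoints ℝ K) \ R)) :
    closure (extremePoints ℝ L) ⊆ closure (closure (extremePoints ℝ L) \ φ ⁻¹' R) := by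
  have hY : closure (closure (extremePoints ℝ L) \ φ ⁻¹' R) ⊆ closure (extremePoints ℝ L) :=
    closure_minimal sdiff_subset isClosed_closure
  refine closure_minimal (key hL hp isClosed_closure (hY.trans hL.sub) ?_ ?_) isClosed_closure
  · refine hL.clos (sdiff_subset.trans hL.sub) (fun g x hx => ⟨hL.ext_inv g hx.1, fun h => hx.2 ?_⟩)
    have hxL := hL.sub hx.1
    rw [mem_preimage, hφ.equiv g x hxL] at h
    have h2 := hR g⁻¹ h
    rwa [hK.inv g (hφ.onto ▸ mem_image_of_mem φ hxL)] at h2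
  · intro y hy
    have hc : IsCompact (φ '' closure (closure (extremePoints ℝ L) \ φ ⁻¹' R)) :=
      (hL.compact.of_isClosed_subset isClosed_closure (hY.trans hL.sub)).image_of_continuousOn
        (hφ.cont.mono (hY.trans hL.sub))
    have h1 : closure (extremePoints ℝ K) \ R ⊆
        φ '' closure (closure (extremePoints ℝ L) \ φ ⁻¹' R) := by
      rintro z ⟨hz, hzR⟩
      obtain ⟨x, hx, rfl⟩ := fibre hL hK hφ hz
      exact ⟨x, subset_closure ⟨hx, hzR⟩, rfl⟩
    obtain ⟨x, hx, rfl⟩ := closure_minimal h1 hc.isClosed (hd hy)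
    exact ⟨x, hx, subset_convexHull _ _ ⟨hY hx, rfl⟩⟩

/-- convex combinations of length `n` inside one fibre and with barycentre in `C` -/
def M (f : E → F) (X C : Set E) (Z : Set F) (n : ℕ) : Set ((Fin n → E) × (Fin n → ℝ) × F) :=
  {p | (∀ i, p.1 i ∈ X) ∧ p.2.1 ∈ stdSimplex ℝ (Fin n) ∧ p.2.2 ∈ Z ∧ ∑ i, p.2.1 i • p.1 i ∈ C ∧
    ∀ i, f (p.1 i) = p.2.2}

omit [LocallyConvexSpace ℝ E] [Module ℝ F] [ContinuousSMul ℝ F] [LocallyConvexSpace ℝ F] in
theorem M_compact {f : E → F} {X C : Set E} {Z : Set F} (n : ℕ) (hX : IsCompact X)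
    (hZ : IsCompact Z) (hC : IsClosed C) (hf : ContinuousOn f X) : IsCompact (M f X C Z n) := by
  have hB : IsCompact ((univ.pi fun _ : Fin n => X) ×ˢ stdSimplex ℝ (Fin n) ×ˢ Z) :=
    (isCompact_univ_pi fun _ => hX).prod ((isCompact_stdSimplex ℝ _).prod hZ)
  have hg : ContinuousOn (fun p : (Fin n → E) × (Fin n → ℝ) × F =>
      (∑ i, p.2.1 i • p.1 i, fun i => f (p.1 i) - p.2.2))
      ((univ.pi fun _ : Fin n => X) ×ˢ stdSimplex ℝ (Fin n) ×ˢ Z) := by
    refine ContinuousOn.prodMk (Continuous.continuousOn (by fun_prop)) ?_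
    refine continuousOn_pi.2 fun i => ContinuousOn.sub ?_ (by fun_prop)
    exact hf.comp (f := fun p : (Fin n → E) × (Fin n → ℝ) × F => p.1 i) (by fun_prop)
      (fun p hp => hp.1 i (mem_univ _))
  have hcl := hg.preimage_isClosed_of_isClosed hB.isClosed
    (hC.prod (isClosed_singleton (x := (0 : Fin n → F))))
  refine hB.of_isClosed_subset ?_ (fun p hp => ⟨fun i _ => hp.1 i, hp.2.1, hp.2.2.1⟩)
  convert hcl using 1
  ext p
  simp only [M, mem_ofPred_eq, mem_inter_iff, mem_prod, mem_pi, mem_univ, true_imp_iff,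
    mem_preimage, mem_singleton_iff, funext_iff, Pi.zero_apply, sub_eq_zero]
  tauto

omit [TopologicalSpace E] [T2Space E] [IsTopologicalAddGroup E] [ContinuousSMul ℝ E]
  [LocallyConvexSpace ℝ E] [TopologicalSpace F] [T2Space F] [IsTopologicalAddGroup F]
  [ContinuousSMul ℝ F] [LocallyConvexSpace ℝ F] [AddCommGroup F] [Module ℝ F] in
theorem M_cover {f : E → F} {X C : Set E} {Z : Set F} {z : F} (hz : z ∈ Z)
    (h : (C ∩ convexHull ℝ (X ∩ f ⁻¹' {z})).Nonempty) : ∃ n x w, (x, w, z) ∈ M f X C Z n := by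
  obtain ⟨c, hc, hc'⟩ := h
  obtain ⟨ι, _, w, x, h0, h1, hx, rfl⟩ := mem_convexHull_iff_exists_fintype.1 hc'
  let e := (Fintype.equivFin ι).symm
  refine ⟨_, x ∘ e, w ∘ e, fun i => (hx _).1, ⟨fun i => h0 _, ?_⟩, hz, ?_, fun i => (hx _).2⟩
  · rw [← h1]; exact e.sum_comp w
  · have := e.sum_comp (fun i => w i • x i)
    simp only [Function.comp]
    rw [this]; exact hc

omit [TopologicalSpace E] [T2Space E] [IsTopologicalAddGroup E] [ContinuousSMul ℝ E]
  [LocallyConvexSpace ℝ E] in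
theorem ext_sum {K : Set E} (hc : Convex ℝ K) {y : E} (hy : y ∈ extremePoints ℝ K) {n : ℕ}
    (w : Fin n → ℝ) (x : Fin n → E) (hw : w ∈ stdSimplex ℝ (Fin n)) (hx : ∀ i, x i ∈ K)
    (e : ∑ i, w i • x i = y) (i : Fin n) (hi : w i ≠ 0) : x i = y := by
  classical
  by_contra hne
  have hcv : Convex ℝ (K \ {y}) := ((hc.mem_extremePoints_iff_convex_sdiff).1 hy).2
  set s := Finset.univ.filter (fun j => x j ≠ y) with hs
  set t := ∑ j ∈ s, w j with ht
  have htpos : 0 < t := Finset.sum_pos' (fun j _ => hw.1 j)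
    ⟨i, by simp [hs, hne], lt_of_le_of_ne (hw.1 i) (Ne.symm hi)⟩
  have hm := hcv.centerMass_mem (t := s) (w := w) (z := x) (fun j _ => hw.1 j) htpos
    (fun j hj => ⟨hx j, (Finset.mem_filter.1 hj).2⟩)
  apply hm.2
  have e1 := Finset.sum_filter_add_sum_filter_not Finset.univ (fun j => x j ≠ y)
    (fun j => w j • x j)
  have e2 := Finset.sum_filter_add_sum_filter_not Finset.univ (fun j => x j ≠ y) w
  have e3 : ∑ j ∈ Finset.univ.filter (fun j => ¬ x j ≠ y), w j • x j =
      (∑ j ∈ Finset.univ.filter (fun j => ¬ x j ≠ y), w j) • y := by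
    rw [Finset.sum_smul]
    exact Finset.sum_congr rfl fun j hj => by rw [not_not.1 (Finset.mem_filter.1 hj).2]
  rw [e, e3] at e1
  rw [hw.2] at e2
  have e4 : ∑ j ∈ s, w j • x j = t • y := by
    rw [eq_sub_of_add_eq e1, eq_sub_of_add_eq' e2, sub_smul, one_smul]; simp [ht, hs]
  rw [mem_singleton_iff, Finset.centerMass, e4, smul_smul, inv_mul_cancel₀ htpos.ne', one_smul]

theorem baire {H : Type*} [TopologicalSpace H] [T2Space H] {Z : Set H} (hZ : IsCompact Z)
    (A : ℕ → Set H) (hA : ∀ n, IsClosed (A n)) (hc : ∀ z ∈ Z, ∃ n, z ∈ A n) :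
    Z ⊆ closure (Z \ ⋂ n, closure (Z \ A n)) := by
  have : CompactSpace Z := isCompact_iff_compactSpace.1 hZ
  have hd := dense_iUnion_interior_of_closed (X := Z) (f := fun n => Subtype.val ⁻¹' A n)
    (fun n => (hA n).preimage continuous_subtype_val)
    (eq_univ_of_forall fun u => mem_iUnion.2 (hc u.1 u.2))
  intro z hz
  have h1 := image_closure_subset_closure_image continuous_subtype_val
    (mem_image_of_mem Subtype.val (hd ⟨z, hz⟩))
  refine closure_mono ?_ h1
  rintro _ ⟨u, hu, rfl⟩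
  obtain ⟨n, hn⟩ := mem_iUnion.1 hu
  refine ⟨u.2, fun h => ?_⟩
  obtain ⟨O, hO, e⟩ := isOpen_induced_iff.1 (isOpen_interior (s := Subtype.val ⁻¹' A n) (X := Z))
  obtain ⟨v, hv, hvZ, hvA⟩ := mem_closure_iff.1 (mem_iInter.1 h n) O hO
    (by rw [← e] at hn; exact hn)
  have : (⟨v, hvZ⟩ : Z) ∈ interior (Subtype.val ⁻¹' A n) := by rw [← e]; exact hv
  have h2 := interior_subset this
  exact hvA h2

end aux

/-- The composition of two proximally irreducible affine extensions is a proximally irreducible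
affine extension. -/
theorem result {G E F H : Type*} [Group G] [TopologicalSpace G] [IsTopologicalGroup G]
    [AddCommGroup E] [Module ℝ E] [TopologicalSpace E] [T2Space E]
    [IsTopologicalAddGroup E] [ContinuousSMul ℝ E] [LocallyConvexSpace ℝ E]
    [AddCommGroup F] [Module ℝ F] [TopologicalSpace F] [T2Space F]
    [IsTopologicalAddGroup F] [ContinuousSMul ℝ F] [LocallyConvexSpace ℝ F]
    [AddCommGroup H] [Module ℝ H] [TopologicalSpace H] [T2Space H]
    [IsTopologicalAddGroup H] [ContinuousSMul ℝ H] [LocallyConvexSpace ℝ H]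
    (a : G → E → E) (P : Set E) (b : G → F → F) (L : Set F) (c : G → H → H) (K : Set H)
    (hP : IsFlow a P) (hL : IsFlow b L) (hK : IsFlow c K)
    (ψ : E → F) (φ : F → H) (hψ : IsExt a P b L ψ) (hφ : IsExt b L c K φ)
    (pψ : ProxIrr a P L ψ) (pφ : ProxIrr b L K φ) :
    ProxIrr a P K (φ ∘ ψ) := by
  intro C hCP hC hCc hCi hm
  set X := closure (extremePoints ℝ P) with hX
  set Y := closure (extremePoints ℝ L) with hY
  set Z := closure (extremePoints ℝ K) with hZ
  have Xc : IsCompact X := hP.compact.of_isClosed_subset isClosed_closure hP.sub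
  have Yc : IsCompact Y := hL.compact.of_isClosed_subset isClosed_closure hL.sub
  have Zc : IsCompact Z := hK.compact.of_isClosed_subset isClosed_closure hK.sub
  have XY : MapsTo ψ X Y := into hP hL hψ pψ
  have YZ : MapsTo φ Y Z := into hL hK hφ pφ
  have cψ : ContinuousOn ψ X := hψ.cont.mono hP.sub
  have cφ : ContinuousOn φ Y := hφ.cont.mono hL.sub
  have Mc : ∀ n, IsCompact (M (φ ∘ ψ) X C Z n) := fun n =>
    M_compact n Xc Zc hC.isClosed (cφ.comp cψ XY)
  have Mi : ∀ n g x w z, (x, w, z) ∈ M (φ ∘ ψ) X C Z n →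
      (fun i => a g (x i), w, c g z) ∈ M (φ ∘ ψ) X C Z n := by
    rintro n g x w z ⟨h1, h2, h3, h4, h5⟩
    refine ⟨fun i => hP.ext_inv g (h1 i), h2, hK.ext_inv g h3, ?_, fun i => ?_⟩
    · have := hCi g h4
      rwa [aff_sum hP.convex (hP.aff g) w x h2 (fun i => hP.sub (h1 i))] at this
    · have := h5 i
      simp only [Function.comp] at this ⊢
      rw [hψ.equiv g _ (hP.sub (h1 i)), hφ.equiv g _ (hL.sub (XY (h1 i))), this]
  let A : ℕ → Set H := fun n => (fun p => p.2.2) '' M (φ ∘ ψ) X C Z n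
  have Ac : ∀ n, IsClosed (A n) := fun n => ((Mc n).image (by fun_prop)).isClosed
  have Ri : ∀ n g, MapsTo (c g) (closure (Z \ A n)) (closure (Z \ A n)) := by
    intro n
    refine hK.clos (sdiff_subset.trans hK.sub) (fun g z hz => ⟨hK.ext_inv g hz.1, ?_⟩)
    rintro ⟨⟨x, w, z'⟩, hp, e⟩
    refine hz.2 ⟨_, Mi n g⁻¹ x w z' hp, ?_⟩
    simp only at e ⊢
    rw [e, hK.inv g (hK.sub hz.1)]
  have d0 := baire Zc A Ac (fun z hz => by
    obtain ⟨n, x, w, h⟩ := M_cover hz (hm z hz)
    exact ⟨n, _, h, rfl⟩)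
  set R := ⋂ n, closure (Z \ A n) with hR
  have Rc : IsClosed R := isClosed_iInter fun n => isClosed_closure
  have RI : ∀ g, MapsTo (c g) R R := fun g z hz =>
    mem_iInter.2 fun n => Ri n g (mem_iInter.1 hz n)
  have pre : ∀ S : Set H, (∀ g, MapsTo (c g) S S) →
      ∀ g, MapsTo (b g) (Y ∩ φ ⁻¹' S) (Y ∩ φ ⁻¹' S) := fun S hS g y hy =>
    ⟨hL.ext_inv g hy.1, by rw [mem_preimage, hφ.equiv g y (hL.sub hy.1)]; exact hS g hy.2⟩
  have d1 := dense_step hL hK hφ pφ RI d0
  have d2 := dense_step hP hL hψ pψ (pre R RI) (by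
    refine d1.trans (closure_mono fun y hy => ⟨hy.1, fun h => hy.2 h.2⟩))
  have step : ∀ n, Y ⊆ (fun p => p.2.2) '' M ψ X C Y n ∪ (Y ∩ φ ⁻¹' closure (Z \ A n)) := by
    intro n
    have c2 : IsClosed (Y ∩ φ ⁻¹' closure (Z \ A n)) :=
      cφ.preimage_isClosed_of_isClosed isClosed_closure isClosed_closure
    have c1 : IsClosed ((fun p => p.2.2) '' M ψ X C Y n) :=
      ((M_compact n Xc Yc hC.isClosed cψ).image (by fun_prop)).isClosed
    have c3 : IsCompact ((fun p : (Fin n → E) × (Fin n → ℝ) × H => ∑ i, p.2.1 i • ψ (p.1 i)) ''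
        M (φ ∘ ψ) X C Z n) := by
      refine (Mc n).image_of_continuousOn (continuousOn_finsetSum _ fun i _ => ?_)
      refine ContinuousOn.smul (by fun_prop) ?_
      exact cψ.comp (f := fun p : (Fin n → E) × (Fin n → ℝ) × H => p.1 i) (by fun_prop)
        (fun p hp => hp.1 i)
    have k := key hL pφ (c3.isClosed.union c2) (union_subset ?_ (inter_subset_left.trans hL.sub))
      (fun g => MapsTo.union_union ?_ (pre _ (Ri n) g)) ?_
    · refine closure_minimal (fun y hy => ?_) (c1.union c2)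
      rcases k hy with ⟨⟨x, w, z⟩, ⟨h1, h2, h3, h4, h5⟩, e⟩ | h
      · left
        simp only at h1 h2 h3 h4 h5 e
        have hx := ext_sum hL.convex hy w (fun i => ψ (x i)) h2 (fun i => hL.sub (XY (h1 i))) e
        obtain ⟨j, hj⟩ : ∃ j, w j ≠ 0 := by
          by_contra hh
          push Not at hh
          have := h2.2
          simp [hh] at this
        refine ⟨(fun i => if w i = 0 then x j else x i, w, y), ⟨fun i => ?_, h2,
          subset_closure hy, ?_, fun i => ?_⟩, rfl⟩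
        · simp only; split_ifs; exacts [h1 j, h1 i]
        · convert h4 using 1
          refine Finset.sum_congr rfl fun i _ => ?_
          simp only; split_ifs with h <;> simp [*]
        · simp only; split_ifs with h; exacts [hx j hj, hx i h]
      · exact Or.inr h
    · rintro _ ⟨p, hp, rfl⟩
      exact hL.convex.sum_mem (fun i _ => hp.2.1.1 i) hp.2.1.2 (fun i _ => hL.sub (XY (hp.1 i)))
    · rintro _ ⟨⟨x, w, z⟩, hp, rfl⟩
      refine ⟨_, Mi n g x w z hp, ?_⟩
      simp only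
      rw [aff_sum hL.convex (hL.aff g) w (fun i => ψ (x i)) hp.2.1
        (fun i => hL.sub (XY (hp.1 i)))]
      exact Finset.sum_congr rfl fun i _ => by rw [hψ.equiv g _ (hP.sub (hp.1 i))]
    · intro z hz
      by_cases h : z ∈ A n
      · obtain ⟨p, hp, rfl⟩ := h
        exact ⟨_, Or.inl ⟨p, hp, rfl⟩, (convex_convexHull ℝ _).sum_mem (fun i _ => hp.2.1.1 i)
          hp.2.1.2 (fun i _ => subset_convexHull _ _ ⟨XY (hp.1 i), hp.2.2.2.2 i⟩)⟩
      · obtain ⟨y, hy, rfl⟩ := fibre hL hK hφ hz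
        exact ⟨y, Or.inr ⟨hy, subset_closure ⟨hz, h⟩⟩, subset_convexHull _ _ ⟨hy, rfl⟩⟩
  have c4 : IsClosed (X ∩ ψ ⁻¹' (Y ∩ φ ⁻¹' R)) :=
    cψ.preimage_isClosed_of_isClosed isClosed_closure
      (cφ.preimage_isClosed_of_isClosed isClosed_closure Rc)
  have k := key hP pψ (hC.isClosed.union c4) (union_subset hCP (inter_subset_left.trans hP.sub))
    (fun g => MapsTo.union_union (hCi g) (fun x hx => ⟨hP.ext_inv g hx.1, by
      rw [mem_preimage, hψ.equiv g x (hP.sub hx.1)]; exact pre R RI g hx.2⟩))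
    (fun y hy => by
      by_cases h : φ y ∈ R
      · obtain ⟨x, hx, rfl⟩ := fibre hP hL hψ hy
        exact ⟨x, Or.inr ⟨hx, hy, h⟩, subset_convexHull _ _ ⟨hx, rfl⟩⟩
      · obtain ⟨n, hn⟩ : ∃ n, φ y ∉ closure (Z \ A n) := by
          by_contra hh
          push Not at hh
          exact h (mem_iInter.2 hh)
        rcases step n hy with ⟨p, hp, rfl⟩ | h'
        · exact ⟨_, Or.inl hp.2.2.2.1, (convex_convexHull ℝ _).sum_mem (fun i _ => hp.2.1.1 i)
            hp.2.1.2 (fun i _ => subset_convexHull _ _ ⟨hp.1 i, hp.2.2.2.2 i⟩)⟩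
        · exact absurd h'.2 hn)
  have XC : X ⊆ C := by
    refine d2.trans (closure_minimal (fun x hx => ?_) hC.isClosed)
    rcases closure_minimal k (hC.isClosed.union c4) hx.1 with h | h
    · exact h
    · exact absurd h.2 hx.2
  refine hCP.antisymm ?_
  rw [← closure_convexHull_extremePoints hP.compact hP.convex]
  exact closure_minimal (convexHull_min (subset_closure.trans XC) hCc) hC.isClosed

end Pool.Agent.Results.MP_d4114f_an.Comp
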